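import Pool.Agent.H562Z.Cone.Main

set_option autoImplicit false

namespace Pool.Agent.Results.MP_b9f29c_an.ANotLocallyTypeI

open Pool.Agent.H562Z.Cone

/-- There is a separable, nuclear, stably finite (unital) C*-algebra that is not locally
approximable by type I C*-algebras. -/
theorem result :
    ∃ (A : Type) (_ : CStarAlgebra A) (_ : PartialOrder A) (_ : StarOrderedRing A),
      TopologicalSpace.SeparableSpace A ∧ IsNuclear A ∧ IsStablyFinite A ∧ ¬ IsLocallyTypeI A :=
  main

end Pool.Agent.Results.MP_b9f29c_an.ANotLocallyTypeI
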